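import Pool.Agent.H86.AP.Df
import Pool.Agent.H19.NF.St

/-!
# [H4 AP] The local weight `Vg`

Part of AP (main term of Malle's conjecture, MP_b39724_nt, think 1507, chapter V). `P` any finite group.
* `ec_eq_one`, `ch_inj`: the characters are injective; `ec_norm`, `ch_norm`.
* `wt_WC`: `WC` is a weight. `vb_supp`, `vb_norm` (V1), `vb_sub` (V2), `vb_conj` (V3), `vb_shift` (N).
-/

set_option autoImplicit false
set_option linter.dupNamespace false

open scoped Classical

noncomputable section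

namespace H4.AP

open H86.AP Pool.Agent.H19.NF

section chars

theorem ec_norm (x : AddCircle (1 : ℝ)) : ‖ec x‖ = 1 := by
  show ‖(AddCircle.toCircle x : ℂ)‖ = 1
  exact Circle.norm_coe _

theorem ec_eq_one {x : AddCircle (1 : ℝ)} (h : ec x = 1) : x = 0 := by
  have h1 : (AddCircle.toCircle x : ℂ) = 1 := h
  have h2 : AddCircle.toCircle x = AddCircle.toCircle (0 : AddCircle (1 : ℝ)) := by
    rw [AddCircle.toCircle_zero]
    exact Circle.ext h1
  exact AddCircle.injective_toCircle one_ne_zero h2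

/-- compatibility of `ch` and `ec` -/
theorem ch_ec (n : ℕ) [NeZero n] (x : ZMod n) : ch n x = ec (ZMod.toAddCircle x) := rfl

theorem ch_norm (n : ℕ) [NeZero n] (x : ZMod n) : ‖ch n x‖ = 1 := by
  rw [ch_ec, ec_norm]

theorem ch_inj (n : ℕ) [NeZero n] {x : ZMod n} (h : ch n x = 1) : x = 0 := by
  rw [ch_ec] at h
  have h1 := ec_eq_one h
  exact ZMod.toAddCircle_injective n (by rw [h1, map_zero])

end chars

variable {p m : ℕ} {P G H : Type} [Group P] [Group G] [Group H]

theorem wt_WC : Wt (WC : P → P → ℂ) where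
  supp σ x h := by
    by_contra h1
    exact h (if_neg h1)
  conj g σ x := by
    unfold WC
    have e : g * σ * g⁻¹ * (g * x * g⁻¹) = g * x * g⁻¹ * (g * σ * g⁻¹) ↔ σ * x = x * σ := by
      have e1 : g * σ * g⁻¹ * (g * x * g⁻¹) = g * (σ * x) * g⁻¹ := by group
      have e2 : g * x * g⁻¹ * (g * σ * g⁻¹) = g * (x * σ) * g⁻¹ := by group
      rw [e1, e2, mul_left_inj, mul_right_inj]
    by_cases h : σ * x = x * σ
    · rw [if_pos h, if_pos (e.2 h)]
    · rw [if_neg h, if_neg fun h' => h (e.1 h')]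
  shift σ x := by
    unfold WC
    have e : σ * (x * σ) = x * σ * σ ↔ σ * x = x * σ := by
      rw [← mul_assoc, mul_left_inj]
    by_cases h : σ * x = x * σ
    · rw [if_pos h, if_pos (e.2 h)]
    · rw [if_neg h, if_neg fun h' => h (e.1 h')]

variable [Fintype P] [NeZero (p ^ m)] (q : P →* G) {b : P → P → ZMod (p ^ m)}
  {w : G → G → G → ZMod (p ^ m)}

/-- V1 -/
theorem vb_supp {t : P} {s x : G} (h : Vg q b t s x ≠ 0) :
    ∃ σ x' : P, IsConj σ t ∧ q σ = s ∧ q x' = x ∧ σ * x' = x' * σ := by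
  unfold Vg at h
  obtain ⟨σ, -, hσ⟩ := Finset.exists_ne_zero_of_sum_ne_zero (right_ne_zero_of_mul h)
  by_cases h1 : IsConj σ t ∧ q σ = s
  · rw [if_pos h1] at hσ
    obtain ⟨x', hx, hc⟩ := vv_supp wt_WC hσ
    exact ⟨σ, x', h1.1, h1.2, hx, hc⟩
  · rw [if_neg h1] at hσ
    exact absurd rfl hσ

theorem vb_comm {t : P} {s x : G} (h : Vg q b t s x ≠ 0) : s * x = x * s := by
  obtain ⟨σ, x', -, h1, h2, h3⟩ := vb_supp q h
  rw [← h1, ← h2, ← map_mul, ← map_mul, h3]

/-- the number of elements of a fibre -/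
theorem card_fib (s : G) : (Finset.univ.filter fun σ : P => q σ = s).card ≤ Nat.card q.ker := by
  rcases (Finset.univ.filter fun σ : P => q σ = s).eq_empty_or_nonempty with h | ⟨τ, hτ⟩
  · rw [h, Finset.card_empty]
    exact Nat.zero_le _
  · rw [Finset.mem_filter] at hτ
    have h1 : (Finset.univ.filter fun σ : P => q σ = s).card ≤ (Finset.univ : Finset q.ker).card := by
      refine Finset.card_le_card_of_injOn (fun σ => if h : τ⁻¹ * σ ∈ q.ker then ⟨τ⁻¹ * σ, h⟩ else 1)
        (fun σ _ => Finset.mem_coe.2 (Finset.mem_univ _)) ?_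
      intro σ hσ ρ hρ h
      rw [Finset.mem_coe, Finset.mem_filter] at hσ hρ
      have h1 : τ⁻¹ * σ ∈ q.ker := by
        rw [MonoidHom.mem_ker, map_mul, map_inv, hτ.2, hσ.2, inv_mul_cancel]
      have h2 : τ⁻¹ * ρ ∈ q.ker := by
        rw [MonoidHom.mem_ker, map_mul, map_inv, hτ.2, hρ.2, inv_mul_cancel]
      beta_reduce at h
      rw [dif_pos h1, dif_pos h2] at h
      exact mul_left_cancel (congrArg Subtype.val h)
    rwa [Finset.card_univ, ← Nat.card_eq_fintype_card] at h1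

/-- V1: the bound -/
theorem vb_norm (t : P) (s x : G) : ‖Vg q b t s x‖ ≤ Fintype.card P := by
  have hk : (0 : ℝ) < Nat.card q.ker := by
    exact_mod_cast Nat.card_pos
  have h0 : ∀ σ : P, ‖VV (ch (p ^ m)) q b WC σ x‖ ≤ Nat.card q.ker := by
    intro σ
    unfold VV
    rw [← Finset.sum_filter]
    refine (norm_sum_le _ _).trans ?_
    have h1 : ∀ y ∈ Finset.univ.filter (fun y : P => q y = x), ‖WC σ y * ch (p ^ m) (- br b σ y)‖ ≤ 1 := by
      intro y _
      rw [norm_mul, ch_norm, mul_one]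
      unfold WC
      split_ifs <;> simp
    refine (Finset.sum_le_sum h1).trans ?_
    rw [Finset.sum_const, nsmul_eq_mul, mul_one]
    exact_mod_cast card_fib q x
  unfold Vg
  rw [norm_mul, norm_inv, Complex.norm_natCast, inv_mul_le_iff₀ hk]
  refine (norm_sum_le _ _).trans ?_
  have h1 : ∀ σ : P, ‖(if IsConj σ t ∧ q σ = s then VV (ch (p ^ m)) q b WC σ x else 0 : ℂ)‖ ≤
      Nat.card q.ker := by
    intro σ
    split_ifs
    · exact h0 σ
    · rw [norm_zero]
      exact hk.le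
  refine (Finset.sum_le_sum fun σ _ => h1 σ).trans ?_
  rw [Finset.sum_const, nsmul_eq_mul, Finset.card_univ, mul_comm]

/-- V2 -/
theorem vb_sub (b : P → P → ZMod (p ^ m)) (c0 : G → G → ZMod (p ^ m)) (t : P) (s x : G) :
    Vg q (fun x y => b x y - c0 (q x) (q y)) t s x = Vg q b t s x * ch (p ^ m) (br c0 s x) := by
  unfold Vg
  rw [mul_assoc, Finset.sum_mul]
  congr 1
  refine Finset.sum_congr rfl fun σ _ => ?_
  by_cases h : IsConj σ t ∧ q σ = s
  · rw [if_pos h, if_pos h]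
    unfold VV
    rw [Finset.sum_mul]
    refine Finset.sum_congr rfl fun y _ => ?_
    by_cases hy : q y = x
    · rw [if_pos hy, if_pos hy, mul_assoc, ← AddChar.map_add_eq_mul]
      congr 2
      unfold br
      beta_reduce
      rw [h.2, hy]
      abel
    · rw [if_neg hy, if_neg hy, zero_mul]
  · rw [if_neg h, if_neg h, zero_mul]

/-- V3, the class function property -/
theorem vb_conj (hb : ∀ x y z, d2 b x y z = w (q x) (q y) (q z)) (t : P) (g : P) (s x : G) :
    Vg q b t (q g * s * (q g)⁻¹) (q g * x * (q g)⁻¹) =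
      Vg q b t s x * ch (p ^ m) (- br (hc w (q g)) s x) := by
  unfold Vg
  rw [mul_assoc (Nat.card q.ker : ℂ)⁻¹, Finset.sum_mul]
  congr 1
  refine (Fintype.sum_equiv (MulAut.conj g).toEquiv _ _ fun σ => ?_).symm
  show (if IsConj σ t ∧ q σ = s then VV (ch (p ^ m)) q b WC σ x else 0) *
    ch (p ^ m) (- br (hc w (q g)) s x) =
    if IsConj (g * σ * g⁻¹) t ∧ q (g * σ * g⁻¹) = q g * s * (q g)⁻¹ then
      VV (ch (p ^ m)) q b WC (g * σ * g⁻¹) (q g * x * (q g)⁻¹) else 0
  have e : (IsConj (g * σ * g⁻¹) t ∧ q (g * σ * g⁻¹) = q g * s * (q g)⁻¹) ↔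
      (IsConj σ t ∧ q σ = s) := by
    have e1 : IsConj σ (g * σ * g⁻¹) := isConj_iff.2 ⟨g, rfl⟩
    have e2 : q (g * σ * g⁻¹) = q g * s * (q g)⁻¹ ↔ q σ = s := by
      rw [map_mul, map_mul, map_inv, mul_left_inj, mul_right_inj]
    rw [e2]
    exact ⟨fun h => ⟨e1.trans h.1, h.2⟩, fun h => ⟨e1.symm.trans h.1, h.2⟩⟩
  by_cases h : IsConj σ t ∧ q σ = s
  · rw [if_pos h, if_pos (e.2 h), vv_conj hb wt_WC, h.2]
  · rw [if_neg h, if_neg (fun h' => h (e.1 h')), zero_mul]

/-- V3 for a surjective `q` -/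
theorem vb_conj' (hq : Function.Surjective q) (hb : ∀ x y z, d2 b x y z = w (q x) (q y) (q z)) (t : P)
    (g s x : G) :
    Vg q b t (g * s * g⁻¹) (g * x * g⁻¹) = Vg q b t s x * ch (p ^ m) (- br (hc w g) s x) := by
  obtain ⟨g, rfl⟩ := hq g
  exact vb_conj q hb t g s x

/-- (N) -/
theorem vb_shift (hb : ∀ x y z, d2 b x y z = w (q x) (q y) (q z)) (t : P) (s x : G) :
    Vg q b t s (x * s) = Vg q b t s x * ch (p ^ m) (- w s x s) := by
  unfold Vg
  rw [mul_assoc (Nat.card q.ker : ℂ)⁻¹, Finset.sum_mul]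
  congr 1
  refine Finset.sum_congr rfl fun σ _ => ?_
  by_cases h : IsConj σ t ∧ q σ = s
  · rw [if_pos h, if_pos h]
    have e := vv_shift (ψ := ch (p ^ m)) hb wt_WC σ x
    rw [h.2] at e
    exact e
  · rw [if_neg h, if_neg h, zero_mul]

end H4.AP

end
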