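import Pool.Agent.H4.AP.Va

/-!
# [H4 AP] The local weight `Vg` and a central extension

Part of AP (main term of Malle's conjecture, MP_b39724_nt, think 1507, chapter V). `E : CE p G H` a central extension, `y = E.i 1`.
* V4 (normal form `w = inf k + θ (ν ∪ et)`): `vb_nu`: `Vg ≠ 0` implies `br ν = 0`; `vb_j0`: at the class of a lift of `y`; `vb_j0y`: invariance under translation by `y`.
* V5 (`w = inf w'`, `β : H → ZMod p` a homomorphism): `vb_push` (general), `vb_proj`, `vb_proj0`.
* V6: `vb_one`, `vb_one_zero`: the trivial group. V7: `vb_id`: the start.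
-/

set_option autoImplicit false
set_option linter.dupNamespace false

open scoped Classical

noncomputable section

namespace H4.AP

open H86.AP Pool.Agent.H19.NF

variable {p m : ℕ} {P G H : Type} [Group P] [Group G] [Group H]

/-- the sum over a fibre of `pi` -/
theorem sum_fib [Fintype G] [NeZero p] (E : CE p G H) (x0 : G) (F : G → ℂ) :
    ∑ x : G, (if E.pi x = E.pi x0 then F x else 0) = ∑ a : ZMod p, F (E.i a * x0) := by
  rw [← Finset.sum_filter]
  refine Finset.sum_bij' (fun x _ => E.et (x * x0⁻¹)) (fun a _ => E.i a * x0) (fun _ _ => Finset.mem_univ _) ?_ ?_ ?_ ?_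
  · intro a _
    rw [Finset.mem_filter]
    exact ⟨Finset.mem_univ _, E.pi_mul a x0⟩
  · intro x hx
    rw [Finset.mem_filter] at hx
    have h : E.pi (x * x0⁻¹) = 1 := by
      rw [map_mul, map_inv, hx.2, mul_inv_cancel]
    rw [← E.eq_i h, inv_mul_cancel_right]
  · intro a _
    rw [mul_inv_cancel_right, E.et_i']
  · intro x hx
    rw [Finset.mem_filter] at hx
    have h : E.pi (x * x0⁻¹) = 1 := by
      rw [map_mul, map_inv, hx.2, mul_inv_cancel]
    rw [← E.eq_i h, inv_mul_cancel_right]

/-- the kernel of `pi` has `p` elements -/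
theorem card_pi [NeZero p] (E : CE p G H) : Nat.card E.pi.ker = p := by
  have e : E.pi.ker ≃ ZMod p := 
    { toFun := fun x => E.et x.1
      invFun := fun a => ⟨E.i a, E.pi_i a⟩
      left_inv := fun x => Subtype.ext (E.eq_i x.2).symm
      right_inv := fun a => E.et_i' a }
  rw [Nat.card_congr e, Nat.card_zmod]

/-- the kernel of a composition -/
theorem card_ker_comp [Finite P] (q : P →* G) (hq : Function.Surjective q) (r : G →* H) :
    Nat.card (r.comp q).ker = Nat.card q.ker * Nat.card r.ker := by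
  have hG : Finite G := Finite.of_surjective q hq
  have hr : Finite r.range := Finite.of_surjective r.rangeRestrict r.rangeRestrict_surjective
  have h1 : Nat.card (r.comp q).ker * Nat.card (r.comp q).range = Nat.card P := by
    rw [mul_comm, ← Nat.card_congr (QuotientGroup.quotientKerEquivRange (r.comp q)).toEquiv]
    exact (Subgroup.card_eq_card_quotient_mul_card_subgroup _).symm
  have h2 : Nat.card r.ker * Nat.card r.range = Nat.card G := by
    rw [mul_comm, ← Nat.card_congr (QuotientGroup.quotientKerEquivRange r).toEquiv]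
    exact (Subgroup.card_eq_card_quotient_mul_card_subgroup _).symm
  have h3 : Nat.card q.ker * Nat.card G = Nat.card P := by
    rw [mul_comm, ← Nat.card_congr (QuotientGroup.quotientKerEquivOfSurjective q hq).toEquiv]
    exact (Subgroup.card_eq_card_quotient_mul_card_subgroup _).symm
  have h4 : (r.comp q).range = r.range := by
    rw [MonoidHom.range_comp, MonoidHom.range_eq_top.2 hq, ← MonoidHom.range_eq_map]
  rw [h4, ← h3, ← h2, ← mul_assoc] at h1
  exact Nat.eq_of_mul_eq_mul_right Nat.card_pos h1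

/-- the class formula -/
theorem card_cls [Fintype P] (s : P) : (Finset.univ.filter fun x : P => IsConj x s).card *
    (Finset.univ.filter fun x : P => s * x = x * s).card = Fintype.card P := by
  have h : (Finset.univ : Finset P).card = ∑ x ∈ Finset.univ.filter (fun x : P => IsConj x s),
      (Finset.univ.filter fun g : P => g * s * g⁻¹ = x).card := by
    refine Finset.card_eq_sum_card_fiberwise fun g _ => ?_
    rw [Finset.mem_coe, Finset.mem_filter]
    exact ⟨Finset.mem_univ _, (isConj_iff.2 ⟨g, rfl⟩ : IsConj s (g * s * g⁻¹)).symm⟩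
  rw [← Finset.card_univ, h, ← smul_eq_mul, ← Finset.sum_const]
  refine Finset.sum_congr rfl fun x hx => ?_
  rw [Finset.mem_filter] at hx
  obtain ⟨g, hg⟩ := isConj_iff.1 hx.2.symm
  refine Finset.card_bij' (fun u _ => g * u) (fun u _ => g⁻¹ * u) ?_ ?_ ?_ ?_
  · intro u hu
    rw [Finset.mem_filter] at hu ⊢
    refine ⟨Finset.mem_univ _, ?_⟩
    have e : u * s * u⁻¹ = s := by rw [← hu.2, mul_inv_cancel_right]
    calc g * u * s * (g * u)⁻¹ = g * (u * s * u⁻¹) * g⁻¹ := by group
      _ = x := by rw [e, hg]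
  · intro u hu
    rw [Finset.mem_filter] at hu ⊢
    refine ⟨Finset.mem_univ _, ?_⟩
    have e : u * s = x * u := by rw [← hu.2, inv_mul_cancel_right]
    rw [mul_assoc, e, ← hg]
    group
  · intro u _
    exact inv_mul_cancel_left g u
  · intro u _
    exact mul_inv_cancel_left g u

section

variable [Fintype P] [NeZero (p ^ m)] (q : P →* G) {b : P → P → ZMod (p ^ m)} {w : G → G → G → ZMod (p ^ m)}

/-- V4: the bracket of `ν` vanishes on the support -/
theorem vb_nu (hq : Function.Surjective q) (E : CE p G H)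
    (hb : ∀ x y z, d2 b x y z = w (q x) (q y) (q z)) {k : H → H → H → ZMod (p ^ m)} (hk : Nr3 k)
    {θ : ZMod p →+ ZMod (p ^ m)} (hθ : Function.Injective θ) {ν : H → H → ZMod p} (hν : Nr2 ν)
    (hw : ∀ x y z, w x y z = k (E.pi x) (E.pi y) (E.pi z) + θ (ν (E.pi x) (E.pi y) * E.et z))
    {t : P} {s x : G} (h : Vg q b t s x ≠ 0) : br ν (E.pi s) (E.pi x) = 0 := by
  have h1 := vb_conj' q hq hb t (E.i 1) s x
  have e : ∀ u : G, E.i 1 * u * (E.i 1)⁻¹ = u := fun u => by
    rw [E.cent, mul_inv_cancel_right]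
  rw [e, e] at h1
  have h2 : ch (p ^ m) (- br (hc w (E.i 1)) s x) = 1 := by
    have h3 : Vg q b t s x * 1 = Vg q b t s x * ch (p ^ m) (- br (hc w (E.i 1)) s x) := by
      rw [mul_one]
      exact h1
    exact (mul_left_cancel₀ h h3).symm
  have h3 := ch_inj _ h2
  have h4 : ∀ u v : G, hc w (E.i 1) u v = - θ (ν (E.pi u) (E.pi v)) := by
    intro u v
    unfold hc
    rw [e, e, hw, hw, hw, E.pi_i, hk.m, hk.l, hk.r, hν.r, hν.l, E.et_i']
    simp
  unfold br at h3 ⊢
  rw [h4, h4] at h3
  refine hθ ?_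
  rw [map_sub, map_zero]
  linear_combination (norm := abel) h3

/-- the class of a lift of a central element -/
theorem vb_j0 {t : P} {y : G} (hy : ∀ g : P, q g * y = y * q g) (hj : q t = y) {s x : G}
    (h : Vg q b t s x ≠ 0) : s = y := by
  obtain ⟨σ, x', h1, h2, -, -⟩ := vb_supp q h
  obtain ⟨g, hg⟩ := isConj_iff.1 h1
  rw [← hg, map_mul, map_mul, map_inv, h2] at hj
  have h3 : q g * s = y * q g := by
    rw [← hj, inv_mul_cancel_right]
  rw [← hy] at h3
  exact mul_left_cancel h3

/-- V4: invariance under the translation by `y` -/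
theorem vb_j0y (E : CE p G H) (hb : ∀ x y z, d2 b x y z = w (q x) (q y) (q z))
    {k : H → H → H → ZMod (p ^ m)} (hk : Nr3 k) {θ : ZMod p →+ ZMod (p ^ m)} {ν : H → H → ZMod p}
    (hν : Nr2 ν)
    (hw : ∀ x y z, w x y z = k (E.pi x) (E.pi y) (E.pi z) + θ (ν (E.pi x) (E.pi y) * E.et z))
    (t : P) (x : G) : Vg q b t (E.i 1) (x * E.i 1) = Vg q b t (E.i 1) x := by
  rw [vb_shift q hb, hw, E.pi_i, hk.l, hν.l, zero_mul, map_zero, add_zero, neg_zero,
    AddChar.map_zero_eq_one, mul_one]

/-- V4: translations by all the powers of `y` -/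
theorem vb_j0i (E : CE p G H) (hb : ∀ x y z, d2 b x y z = w (q x) (q y) (q z))
    {k : H → H → H → ZMod (p ^ m)} (hk : Nr3 k) {θ : ZMod p →+ ZMod (p ^ m)} {ν : H → H → ZMod p}
    (hν : Nr2 ν)
    (hw : ∀ x y z, w x y z = k (E.pi x) (E.pi y) (E.pi z) + θ (ν (E.pi x) (E.pi y) * E.et z))
    (t : P) (x : G) (a : ZMod p) : Vg q b t (E.i 1) (E.i a * x) = Vg q b t (E.i 1) x := by
  have h1 : ∀ a : ZMod p, Vg q b t (E.i 1) (E.i (a + 1) * x) = Vg q b t (E.i 1) (E.i a * x) := by
    intro a
    have e : E.i (a + 1) * x = E.i a * x * E.i 1 := by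
      rw [E.i_add, mul_assoc (E.i a), E.cent 1 x, ← mul_assoc]
    rw [e, vb_j0y q E hb hk hν hw]
  have h2 : ∀ n : ℤ, Vg q b t (E.i 1) (E.i (n : ZMod p) * x) = Vg q b t (E.i 1) x := by
    intro n
    induction n using Int.induction_on with
    | zero => rw [Int.cast_zero, E.i_zero, one_mul]
    | succ n ih =>
      rw [Int.cast_add, Int.cast_one, h1]
      exact ih
    | pred n ih =>
      rw [← ih, ← h1]
      congr 3
      push_cast
      ring
  obtain ⟨n, rfl⟩ := ZMod.intCast_surjective a
  exact h2 n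

/-- V5: the sum over the fibres of a further quotient -/
theorem vb_push [Fintype G] (hq : Function.Surjective q) (r : G →* H) (b : P → P → ZMod (p ^ m))
    (c0 : G → G → ZMod (p ^ m)) (t : P) (s x : H) :
    Vg (r.comp q) (fun x y => b x y - c0 (q x) (q y)) t s x = (Nat.card r.ker : ℂ)⁻¹ *
      ∑ s' : G, if r s' = s then ∑ x' : G, if r x' = x then
        Vg q b t s' x' * ch (p ^ m) (br c0 s' x') else 0 else 0 := by
  have e1 : ∀ s' x' : G, Vg q b t s' x' * ch (p ^ m) (br c0 s' x') = (Nat.card q.ker : ℂ)⁻¹ *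
      ∑ σ : P, if q σ = s' then (if IsConj σ t then
        VV (ch (p ^ m)) q b WC σ x' * ch (p ^ m) (br c0 (q σ) x') else 0) else 0 := by
    intro s' x'
    unfold Vg
    rw [mul_assoc, Finset.sum_mul]
    congr 1
    refine Finset.sum_congr rfl fun σ _ => ?_
    by_cases h1 : q σ = s'
    · subst h1
      rw [if_pos rfl]
      by_cases h2 : IsConj σ t
      · rw [if_pos ⟨h2, rfl⟩, if_pos h2]
      · rw [if_neg fun h => h2 h.1, if_neg h2, zero_mul]
    · rw [if_neg h1, if_neg fun h => h1 h.2, zero_mul]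
  have e2 : ∀ s' : G, (if r s' = s then ∑ x' : G, if r x' = x then
      Vg q b t s' x' * ch (p ^ m) (br c0 s' x') else 0 else 0) = (Nat.card q.ker : ℂ)⁻¹ *
      ∑ σ : P, if q σ = s' then (if IsConj σ t ∧ r s' = s then
        VV (ch (p ^ m)) (r.comp q) (fun x y => b x y - c0 (q x) (q y)) WC σ x else 0) else 0 := by
    intro s'
    by_cases hs : r s' = s
    · rw [if_pos hs]
      have e3 : ∀ x' : G, (if r x' = x then Vg q b t s' x' * ch (p ^ m) (br c0 s' x') else 0) =
          (Nat.card q.ker : ℂ)⁻¹ * ∑ σ : P, if q σ = s' then (if IsConj σ t then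
            (if r x' = x then VV (ch (p ^ m)) q b WC σ x' * ch (p ^ m) (br c0 (q σ) x') else 0) else 0) else 0 := by
        intro x'
        by_cases hx : r x' = x
        · rw [if_pos hx, e1]
          congr 1
          refine Finset.sum_congr rfl fun σ _ => ?_
          rw [if_pos hx]
        · rw [if_neg hx, Finset.sum_eq_zero, mul_zero]
          intro σ _
          rw [if_neg hx, ite_self, ite_self]
      rw [Finset.sum_congr rfl fun x' _ => e3 x', ← Finset.mul_sum, Finset.sum_comm]
      congr 1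
      refine Finset.sum_congr rfl fun σ _ => ?_
      by_cases h1 : q σ = s'
      · by_cases h2 : IsConj σ t
        · simp only [if_pos h1, if_pos h2, if_pos (And.intro h2 hs)]
          rw [vv_push]
        · simp only [if_neg h2, if_neg (fun h : IsConj σ t ∧ r s' = s => h2 h.1), ite_self,
            Finset.sum_const_zero]
      · simp only [if_neg h1, Finset.sum_const_zero]
    · rw [if_neg hs, Finset.sum_eq_zero, mul_zero]
      intro σ _
      rw [if_neg (fun h : IsConj σ t ∧ r s' = s => hs h.2), ite_self]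
  rw [Finset.sum_congr rfl fun s' _ => e2 s', ← Finset.mul_sum, Finset.sum_comm, ← mul_assoc, ← mul_inv]
  unfold Vg
  rw [card_ker_comp q hq r]
  congr 1
  · rw [mul_comm]
    push_cast
    rfl
  · refine Finset.sum_congr rfl fun σ _ => ?_
    rw [Finset.sum_ite_eq Finset.univ (q σ), if_pos (Finset.mem_univ _)]
    rfl

/-- V5: the projection identity -/
theorem vb_proj [Fintype G] [NeZero p] (hq : Function.Surjective q) (E : CE p G H) (θ : ZMod p →+ ZMod (p ^ m))
    (β : H → ZMod p) (b : P → P → ZMod (p ^ m)) (t : P) (s x : H) (x0 : G) (hx : E.pi x0 = x) :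
    Vg (E.pi.comp q) (fun x y => b x y - θ (β (E.pi (q x)) * E.et (q y))) t s x =
      ∑ s' : G, if E.pi s' = s then (p : ℂ)⁻¹ * ∑ a : ZMod p,
        Vg q b t s' (E.i a * x0) * ch (p ^ m) (θ (β s * (E.et x0 + a) - β x * E.et s')) else 0 := by
  rw [vb_push q hq E.pi b (fun x y => θ (β (E.pi x) * E.et y)), card_pi, Finset.mul_sum]
  refine Finset.sum_congr rfl fun s' _ => ?_
  by_cases hs : E.pi s' = s
  · rw [if_pos hs, if_pos hs, ← hx, sum_fib E x0]
    congr 1
    refine Finset.sum_congr rfl fun a _ => ?_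
    congr 2
    unfold br
    beta_reduce
    rw [E.pi_mul, E.et_i, hs, hx, map_sub, add_comm a]
  · rw [if_neg hs, if_neg hs, mul_zero]

/-- V5: the projection identity, with the sections -/
theorem vb_proj' [Fintype G] [NeZero p] (hq : Function.Surjective q) (E : CE p G H) (θ : ZMod p →+ ZMod (p ^ m))
    (β : H → ZMod p) (b : P → P → ZMod (p ^ m)) (t : P) (s x : H) :
    Vg (E.pi.comp q) (fun x y => b x y - θ (β (E.pi (q x)) * E.et (q y))) t s x =
      ∑ a' : ZMod p, (p : ℂ)⁻¹ * ∑ a : ZMod p,
        Vg q b t (E.i a' * E.s s) (E.i a * E.s x) * ch (p ^ m) (θ (β s * a - β x * a')) := by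
  rw [vb_proj q hq E θ β b t s x (E.s x) (E.pi_s x)]
  conv_lhs => rw [← E.pi_s s]
  rw [sum_fib E (E.s s)]
  refine Finset.sum_congr rfl fun a' _ => ?_
  congr 1
  refine Finset.sum_congr rfl fun a _ => ?_
  rw [E.et_s, zero_add, E.et_i, E.et_s, add_zero, E.pi_s]

/-- V5 at the class of a lift of `y` -/
theorem vb_proj0 [Fintype G] [NeZero p] (hq : Function.Surjective q) (E : CE p G H)
    (hb : ∀ x y z, d2 b x y z = w (q x) (q y) (q z)) {k : H → H → H → ZMod (p ^ m)} (hk : Nr3 k)
    (hw : ∀ x y z, w x y z = k (E.pi x) (E.pi y) (E.pi z)) (θ : ZMod p →+ ZMod (p ^ m))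
    (β : H → ZMod p) (hβ : ∀ x y, β (x * y) = β x + β y) {t : P} (hj : q t = E.i 1) (x : G) :
    Vg (E.pi.comp q) (fun x y => b x y - θ (β (E.pi (q x)) * E.et (q y))) t 1 (E.pi x) =
      Vg q b t (E.i 1) x * ch (p ^ m) (- θ (β (E.pi x))) := by
  have hw' : ∀ x y z, w x y z = k (E.pi x) (E.pi y) (E.pi z) +
      θ ((fun _ _ => (0 : ZMod p)) (E.pi x) (E.pi y) * E.et z) := by
    intro x y z
    rw [hw, zero_mul, map_zero, add_zero]
  have hn : Nr2 (fun _ _ : H => (0 : ZMod p)) := ⟨fun _ => rfl, fun _ => rfl⟩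
  have hp : (p : ℂ) ≠ 0 := by exact_mod_cast NeZero.ne p
  have hβ1 : β 1 = 0 := by
    have h := hβ 1 1
    rw [mul_one] at h
    linear_combination -h
  rw [vb_proj q hq E θ β b t 1 (E.pi x) x rfl, Finset.sum_eq_single (E.i 1)]
  · rw [if_pos (E.pi_i 1)]
    have e : ∀ a : ZMod p, Vg q b t (E.i 1) (E.i a * x) *
        ch (p ^ m) (θ (β 1 * (E.et x + a) - β (E.pi x) * E.et (E.i 1))) =
        Vg q b t (E.i 1) x * ch (p ^ m) (- θ (β (E.pi x))) := by
      intro a
      rw [vb_j0i q E hb hk hn hw', hβ1, zero_mul, zero_sub, E.et_i', mul_one, map_neg]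
    rw [Finset.sum_congr rfl fun a _ => e a, Finset.sum_const, Finset.card_univ, ZMod.card, nsmul_eq_mul,
      ← mul_assoc, inv_mul_cancel₀ hp, one_mul]
  · intro s' _ hs
    have h0 : ∀ x', Vg q b t s' x' = 0 := by
      intro x'
      by_contra h
      exact hs (vb_j0 q (fun g => (E.cent 1 (q g)).symm) hj h)
    rw [Finset.sum_eq_zero fun a _ => by rw [h0, zero_mul], mul_zero, ite_self]
  · intro h
    exact absurd (Finset.mem_univ _) h

omit [Fintype P] [NeZero (p ^ m)] in
/-- the bracket with a cocycle is a homomorphism on the centraliser -/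
theorem br_hom (hb : ∀ x y z, d2 b x y z = 0) {s y z : P} (hy : s * y = y * s) (hz : s * z = z * s) :
    br b s (y * z) = br b s y + br b s z := by
  have h1 := hb s y z
  have h2 := hb y s z
  have h3 := hb y z s
  unfold d2 at h1 h2 h3
  rw [hy] at h1
  rw [hz] at h2
  unfold br
  linear_combination (norm := abel) h1 - h2 + h3

theorem vv_one [Subsingleton G] (b : P → P → ZMod (p ^ m)) (s : P) (x : G) : VV (ch (p ^ m)) q b WC s x =
    ∑ y ∈ Finset.univ.filter (fun y : P => s * y = y * s), ch (p ^ m) (- br b s y) := by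
  unfold VV
  rw [Finset.sum_filter]
  refine Finset.sum_congr rfl fun y _ => ?_
  rw [if_pos (Subsingleton.elim _ _)]
  unfold WC
  rw [ite_mul, one_mul, zero_mul]

/-- the sum of a homomorphism on the centraliser -/
theorem vv_one' [Subsingleton G] (hb : ∀ x y z, d2 b x y z = 0) (s : P) (x : G) :
    VV (ch (p ^ m)) q b WC s x = 0 ∨
    VV (ch (p ^ m)) q b WC s x = ((Finset.univ.filter fun y : P => s * y = y * s).card : ℂ) := by
  let C : Subgroup P := Subgroup.centralizer {s}
  have hC : ∀ y : P, y ∈ Finset.univ.filter (fun y : P => s * y = y * s) ↔ y ∈ C := by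
    intro y
    rw [Finset.mem_filter, Subgroup.mem_centralizer_singleton_iff]
    exact ⟨fun h => h.2.symm, fun h => ⟨Finset.mem_univ _, h.symm⟩⟩
  have hc : ∀ y : C, s * y.1 = y.1 * s := fun y => (Subgroup.mem_centralizer_singleton_iff.1 y.2).symm
  let f : C →* ℂ :=
    { toFun := fun y => ch (p ^ m) (- br b s y.1)
      map_one' := by
        have h := br_hom (s := s) (y := 1) (z := 1) hb (by simp) (by simp)
        rw [mul_one] at h
        have h1 : br b s 1 = 0 := by linear_combination (norm := abel) -h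
        show ch (p ^ m) (- br b s 1) = 1
        rw [h1, neg_zero, AddChar.map_zero_eq_one]
      map_mul' := fun y z => by
        show ch (p ^ m) (- br b s (y.1 * z.1)) = _
        rw [← AddChar.map_add_eq_mul, br_hom hb (hc y) (hc z)]
        congr 1
        abel }
  have e : VV (ch (p ^ m)) q b WC s x = ∑ y : C, f y := by
    rw [vv_one]
    exact Finset.sum_subtype _ hC _
  have e2 : (Finset.univ.filter fun y : P => s * y = y * s).card = Fintype.card C := by
    rw [Fintype.card_of_subtype _ hC]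
  rw [e, e2]
  have h := sum_hom_units f
  split_ifs at h with h1
  · exact Or.inr h
  · exact Or.inl (h.trans Nat.cast_zero)

/-- the value for a trivial group -/
theorem vb_triv [Subsingleton G] (hb : ∀ x y z, d2 b x y z = 0) (t : P) (s x : G) :
    Vg q b t s x = (Fintype.card P : ℂ)⁻¹ * (((Finset.univ.filter fun y : P => IsConj y t).card : ℂ) *
      VV (ch (p ^ m)) q b WC t x) := by
  have hk : Nat.card q.ker = Fintype.card P := by
    have h : q.ker = ⊤ := by
      ext y
      rw [MonoidHom.mem_ker]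
      exact ⟨fun _ => Subgroup.mem_top y, fun _ => Subsingleton.elim _ _⟩
    rw [h, Subgroup.card_top, Nat.card_eq_fintype_card]
  unfold Vg
  rw [hk]
  congr 1
  rw [← nsmul_eq_mul, ← Finset.sum_const, Finset.sum_filter]
  refine Finset.sum_congr rfl fun σ _ => ?_
  by_cases h : IsConj σ t
  · rw [if_pos ⟨h, Subsingleton.elim _ _⟩, if_pos h]
    obtain ⟨g, hg⟩ := isConj_iff.1 h
    have h1 := vv_conj (ψ := ch (p ^ m)) (q := q) (b := b) (w := fun _ _ _ => 0) hb wt_WC g σ x
    have h2 : br (hc (fun _ _ _ : G => (0 : ZMod (p ^ m))) (q g)) (q σ) x = 0 := by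
      unfold br hc
      simp
    rw [h2, neg_zero, AddChar.map_zero_eq_one, mul_one, hg] at h1
    rw [← h1]
    congr 1
    exact Subsingleton.elim _ _
  · rw [if_neg h, if_neg fun h' => h h'.1]

/-- V6: the trivial group -/
theorem vb_one [Subsingleton G] (hb : ∀ x y z, d2 b x y z = 0) (t : P) (s x : G) :
    Vg q b t s x = 0 ∨ Vg q b t s x = 1 := by
  rw [vb_triv q hb]
  rcases vv_one' q hb t x with h | h
  · left
    rw [h, mul_zero, mul_zero]
  · right
    rw [h, ← Nat.cast_mul, card_cls]
    exact inv_mul_cancel₀ (by exact_mod_cast Fintype.card_ne_zero)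

/-- V6: the trivial group, `b = 0` -/
theorem vb_one_zero [Subsingleton G] (t : P) (s x : G) : Vg q (fun _ _ => (0 : ZMod (p ^ m))) t s x = 1 := by
  have hb : ∀ x y z, d2 (fun _ _ : P => (0 : ZMod (p ^ m))) x y z = 0 := by
    intro x y z
    unfold d2
    simp
  have h : VV (ch (p ^ m)) q (fun _ _ => (0 : ZMod (p ^ m))) WC t x =
      ((Finset.univ.filter fun y : P => t * y = y * t).card : ℂ) := by
    rw [vv_one]
    have e : ∀ y : P, ch (p ^ m) (- br (fun _ _ => (0 : ZMod (p ^ m))) t y) = 1 := by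
      intro y
      unfold br
      rw [sub_zero, neg_zero, AddChar.map_zero_eq_one]
    rw [Finset.sum_congr rfl fun y _ => e y, Finset.sum_const, nsmul_eq_mul, mul_one]
  rw [vb_triv q hb, h, ← Nat.cast_mul, card_cls]
  exact inv_mul_cancel₀ (by exact_mod_cast Fintype.card_ne_zero)

/-- V7: the start -/
theorem vb_id (t : P) (s x : P) : Vg (MonoidHom.id P) (fun _ _ => (0 : ZMod (p ^ m))) t s x =
    if IsConj s t ∧ s * x = x * s then 1 else 0 := by
  have hk : Nat.card (MonoidHom.id P).ker = 1 := by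
    have h : (MonoidHom.id P).ker = ⊥ := by
      ext y
      rw [MonoidHom.mem_ker, Subgroup.mem_bot]
      rfl
    rw [h, Subgroup.card_bot]
  have hv : ∀ σ : P, VV (ch (p ^ m)) (MonoidHom.id P) (fun _ _ => (0 : ZMod (p ^ m))) WC σ x = WC σ x := by
    intro σ
    unfold VV
    rw [Finset.sum_eq_single x]
    · rw [if_pos (MonoidHom.id_apply P x)]
      unfold br
      rw [sub_zero, neg_zero, AddChar.map_zero_eq_one, mul_one]
    · intro y _ hy
      exact if_neg hy
    · intro h
      exact absurd (Finset.mem_univ _) h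
  unfold Vg
  rw [hk, Nat.cast_one, inv_one, one_mul, Finset.sum_eq_single s]
  · rw [hv]
    unfold WC
    by_cases h1 : IsConj s t
    · rw [if_pos ⟨h1, rfl⟩]
      by_cases h2 : s * x = x * s
      · rw [if_pos h2, if_pos ⟨h1, h2⟩]
      · rw [if_neg h2, if_neg fun h => h2 h.2]
    · rw [if_neg fun h => h1 h.1, if_neg fun h => h1 h.1]
  · intro σ _ hσ
    exact if_neg fun h => hσ h.2
  · intro h
    exact absurd (Finset.mem_univ _) h

end

end H4.AP

end
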