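import Pool.Agent.H19.ST.Chg
import Pool.Agent.H19.ST.Grp

/-!
# [H4 AP ME] tools for the main case of the step theorem (H19/ST/Mnc)

* `V2`: the factor at the new prime (`v2_eq`, `v2_cls`, `v2_norm`). `F2`: the class function on `H × ZMod p`.
* `ev_fam`: a family of values at `F_u` as `Ev`.
* `nbh`: the character `-β ∘ φ`.
* `br_ee`: the bracket of `ee` of the images of commuting elements is zero.
* `sum_lab`, `prod_lab`: the sum over the labels.
-/

set_option autoImplicit false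
set_option linter.dupNamespace false

open scoped NumberField ComplexConjugate
open IsDedekindDomain
open scoped Classical

noncomputable section

namespace H4.AP

open H63.MA H38.BB H38.BG H57.PC H57.BRA H57.GP H77.PC3 H77.WD Pool.Agent.H19.NF
  Pool.Agent.H19.AB Pool.Agent.H19.ST H86.AP

section v2

variable {p m : ℕ} {P G H : Type} [Group P] [Fintype P] [Group G] [Group H] [NeZero (p ^ m)]

/-- the factor at the new prime -/
def V2 (E : CE p G H) (q : P →* G) (b : P → P → ZMod (p ^ m)) (t : P) (x : H) : ℂ :=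
  Vg q b t (E.i 1) (E.s x)

theorem v2_eq (E : CE p G H) (q : P →* G) {b : P → P → ZMod (p ^ m)}
    {w' : H → H → H → ZMod (p ^ m)}
    (hb : ∀ x y z, d2 b x y z = w' (E.pi (q x)) (E.pi (q y)) (E.pi (q z))) (hw : Nr3 w') (t : P)
    (x : G) : Vg q b t (E.i 1) x = V2 E q b t (E.pi x) := by
  have h := vb_j0i q E (w := fun x y z => w' (E.pi x) (E.pi y) (E.pi z)) hb hw
    (θ := (0 : ZMod p →+ ZMod (p ^ m))) (ν := fun _ _ => 0) ⟨fun _ => rfl, fun _ => rfl⟩
    (fun x y z => by simp) t (E.s (E.pi x)) (E.et x)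
  rw [← E.dec x] at h
  exact h

theorem v2_cls (E : CE p G H) (q : P →* G) (hq : Function.Surjective q)
    {b : P → P → ZMod (p ^ m)} {w' : H → H → H → ZMod (p ^ m)}
    (hb : ∀ x y z, d2 b x y z = w' (E.pi (q x)) (E.pi (q y)) (E.pi (q z))) (hw : Nr3 w') (t : P)
    (g x : H) : V2 E q b t (g * x * g⁻¹) = V2 E q b t x := by
  have h := vb_conj' q hq (w := fun x y z => w' (E.pi x) (E.pi y) (E.pi z)) hb t (E.s g) (E.i 1)
    (E.s x)
  have e1 : E.s g * E.i 1 * (E.s g)⁻¹ = E.i 1 := by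
    rw [← E.cent, mul_inv_cancel_right]
  have e2 : E.pi (E.s g * E.s x * (E.s g)⁻¹) = g * x * g⁻¹ := by
    rw [map_mul, map_mul, map_inv, E.pi_s, E.pi_s]
  have e3 : br (hc (fun x y z => w' (E.pi x) (E.pi y) (E.pi z)) (E.s g)) (E.i 1) (E.s x) = 0 := by
    unfold br hc
    beta_reduce
    rw [e1, e2, E.pi_i, hw.l, hw.l, hw.m, hw.m, hw.r, hw.r]
    simp
  rw [e1, v2_eq E q hb hw, e2, e3, neg_zero, AddChar.map_zero_eq_one, mul_one] at h
  exact h

theorem v2_norm (E : CE p G H) (q : P →* G) (b : P → P → ZMod (p ^ m)) (t : P) (x : H) :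
    ‖V2 E q b t x‖ ≤ Fintype.card P := vb_norm q t _ _

/-- the class function -/
def F2 [NeZero p] (E : CE p G H) (q : P →* G) (b : P → P → ZMod (p ^ m)) (t : P)
    (x : H × Multiplicative (ZMod p)) : ℂ := V2 E q b t x.1 * ch p (Multiplicative.toAdd x.2)

theorem mz_pow {p : ℕ} (z : Multiplicative (ZMod p)) : z ^ p = 1 := by
  apply Multiplicative.toAdd.injective
  rw [toAdd_pow, toAdd_one, nsmul_eq_mul, CharP.cast_eq_zero, zero_mul]

theorem f2_cz [NeZero p] (E : CE p G H) (hG : ∀ g : G, g ^ p = 1) (q : P →* G)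
    (hq : Function.Surjective q) {b : P → P → ZMod (p ^ m)} {w' : H → H → H → ZMod (p ^ m)}
    (hb : ∀ x y z, d2 b x y z = w' (E.pi (q x)) (E.pi (q y)) (E.pi (q z))) (hw : Nr3 w')
    (t : P) : Cz p (H × Multiplicative (ZMod p)) (F2 E q b t) where
  exp h := Prod.ext (exp_H E hG h.1) (mz_pow h.2)
  cls g h := by
    unfold F2
    have e1 : (g * h * g⁻¹).1 = g.1 * h.1 * g.1⁻¹ := rfl
    have e2 : (g * h * g⁻¹).2 = h.2 := by
      show g.2 * h.2 * g.2⁻¹ = h.2
      rw [mul_comm g.2, mul_inv_cancel_right]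
    rw [e1, e2, v2_cls E q hq hb hw]

end v2

section ev

variable {K : Type} [Field K] [NumberField K] {Ω : Type} [Field Ω] [Algebra K Ω]
  {p : ℕ} {ζ : K}

theorem ev_fam {D : RD0 K p ζ} (L : LDs D Ω) (Fr : FR L) {H' : Type} [Group H'] (F : H' → ℂ)
    (T : Finset (Pl K)) {ι : Type} (J : Finset ι) (Θ : ι → Gal(Ω/K) →* H') (A : ι → ℂ)
    (hΘ : ∀ i ∈ J, Θ i ∈ HS L H' T) (u : Pl K) :
    ∑ i ∈ J, A i * F (Θ i (Fr.F u)) =
      Ev L Fr H' F T (fun Θ' => ∑ i ∈ J, if Θ' = Θ i then A i else 0) u := by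
  unfold Ev
  have e : ∀ Θ' ∈ HS L H' T, (∑ i ∈ J, if Θ' = Θ i then A i else 0) * F (Θ' (Fr.F u)) =
      ∑ i ∈ J, if Θ' = Θ i then A i * F (Θ i (Fr.F u)) else 0 := by
    intro Θ' _
    rw [Finset.sum_mul]
    refine Finset.sum_congr rfl fun i _ => ?_
    split_ifs with h
    · rw [h]
    · rw [zero_mul]
  rw [Finset.sum_congr rfl e, Finset.sum_comm]
  refine (Finset.sum_congr rfl fun i hi => ?_).symm
  rw [Finset.sum_ite_eq' (HS L H' T) (Θ i) fun _ => A i * F (Θ i (Fr.F u)), if_pos (hΘ i hi)]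

/-- the character `-β ∘ φ` -/
def nbh {Γ H : Type} [Group Γ] [Group H] (β : H → ZMod p) (φ : Γ →* H) :
    Γ →* Multiplicative (ZMod p) :=
  if h : ∀ x y, β (x * y) = β x + β y then
    MonoidHom.mk' (fun σ => Multiplicative.ofAdd (-β (φ σ))) fun σ τ => by
      rw [map_mul, h, neg_add, ofAdd_add]
  else 1

theorem nbh_apply {Γ H : Type} [Group Γ] [Group H] {β : H → ZMod p}
    (h : ∀ x y, β (x * y) = β x + β y) (φ : Γ →* H) (σ : Γ) :
    Multiplicative.toAdd (nbh β φ σ) = -β (φ σ) := by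
  unfold nbh
  rw [dif_pos h]
  rfl

theorem hom_one {H : Type} [Group H] {β : H → ZMod p} (h : ∀ x y, β (x * y) = β x + β y) :
    β 1 = 0 := by
  have h1 := h 1 1
  rw [mul_one] at h1
  exact left_eq_add.1 h1

/-- the bracket of `ee` -/
theorem br_ee {G H : Type} [Group G] [Group H] (E : CE p G H) {x y : G} (h : x * y = y * x) :
    br E.ee (E.pi x) (E.pi y) = 0 := by
  have h1 := br_d1 E.et h
  unfold br at h1 ⊢
  rw [E.d1_et, E.d1_et] at h1
  exact h1

end ev

section lab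

variable {p m : ℕ} {P G H : Type} [Group P] [Fintype P] [Group G] [Group H] [NeZero p]
  [NeZero (p ^ m)]

/-- the sum over a fibre does not depend on the base point -/
theorem sum_base (E : CE p G H) (f : G → ℂ) (x : G) :
    ∑ a : ZMod p, f (E.i a * x) = ∑ a : ZMod p, f (E.i a * E.s (E.pi x)) := by
  refine Fintype.sum_equiv (Equiv.addRight (E.et x)) _ _ fun a => ?_
  show f (E.i a * x) = f (E.i (a + E.et x) * E.s (E.pi x))
  rw [E.i_add, mul_assoc, ← E.dec x]

theorem ch_tz (hp : p.Prime) (hm : 1 ≤ m) (a : ZMod p) : ch (p ^ m) (tz p m a) = ch p a := tz_ch hp hm a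

theorem sum_lab [Fintype G] (hp : p.Prime) (hm : 1 ≤ m) (E : CE p G H) (q : P →* G)
    (hq : Function.Surjective q) (b : P → P → ZMod (p ^ m)) (β : H → ZMod p) (l : ZMod p)
    (t : P) (s x : H) :
    Vg (E.pi.comp q) (fun x y => l.val • (b x y - be (tz p m) E β (q x) (q y))) t s x =
      ∑ a' : ZMod p, (p : ℂ)⁻¹ * ∑ a : ZMod p,
        Vg q (fun x y => l.val • b x y) t (E.i a' * E.s s) (E.i a * E.s x) *
          ch p (l * bb E β (E.i a' * E.s s) (E.i a * E.s x)) := by
  have h := vb_proj' q hq E (l.val • tz p m) β (fun x y => l.val • b x y) t s x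
  have e1 : (fun x y : P => l.val • b x y - (l.val • tz p m) (β (E.pi (q x)) * E.et (q y))) =
      fun x y => l.val • (b x y - be (tz p m) E β (q x) (q y)) := by
    funext x y
    rw [smul_sub]
    rfl
  rw [e1] at h
  rw [h]
  refine Finset.sum_congr rfl fun a' _ => ?_
  congr 1
  refine Finset.sum_congr rfl fun a _ => ?_
  congr 1
  have e2 : (l.val • tz p m) (β s * a - β x * a') = tz p m (l * (β s * a - β x * a')) := by
    rw [AddMonoidHom.nsmul_apply, val_th hp]
  have e3 : bb E β (E.i a' * E.s s) (E.i a * E.s x) = β s * a - β x * a' := by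
    unfold bb
    rw [E.pi_mul, E.pi_mul, E.pi_s, E.pi_s, E.et_i, E.et_i, E.et_s, E.et_s, add_zero, add_zero]
  rw [e2, e3, ch_tz hp hm]

end lab

end H4.AP

end
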