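import Pool.Agent.H4.AP.Me

/-!
# [H4 AP MF] the sums `BB` over one more prime

* `bb_x`: `BB` for the state `(b, w' ∘ π)` over `T ∪ {u}`, label of the class `j₀` at `u`, as a sum over the lifts. `bb_af`: the same with the coefficients `Af`.
* `bb_be`: `BB` for the state of `β` on `H` over `T ∪ {u}`.
-/

set_option autoImplicit false
set_option linter.dupNamespace false

open scoped NumberField ComplexConjugate
open IsDedekindDomain
open scoped Classical

noncomputable section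

namespace H4.AP

open H63.MA H38.BB H38.BG H57.PC H57.BRA H57.GP H77.PC3 H77.WD Pool.Agent.H19.NF
  Pool.Agent.H19.AB Pool.Agent.H19.ST H86.AP

variable {K : Type} [Field K] [NumberField K] {Ω : Type} [Field Ω] [Algebra K Ω]
  [IsAlgClosure K Ω] {p m N : ℕ} {ζ : K} {P G H : Type} [Group P] [Fintype P] [Group G]
  [Fintype G] [Group H] [Fintype H]

/-- the local factors -/
def gv [NeZero (p ^ m)] (E : CE p G H) {D : RD0 K p ζ} (L : LDs D Ω) (q : P →* G)
    (lam : Pl K → ZMod p) (b : P → P → ZMod (p ^ m)) (γ : Pl K → P) (φ' : Gal(Ω/K) →* H)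
    (T : Finset (Pl K)) (a : T → ZMod p) (v : Pl K) (x : G) : ℂ :=
  Vg q (fun x y => (lam v).val • b x y) (γ v) (sv E L φ' T a v) x

omit [Group P] [Fintype P] in
theorem one_smul_b {M : Type} [AddCommGroup M] (hp : p.Prime) {l : ZMod p} (hl : l = 1)
    (b : P → P → M) : (fun x y => l.val • b x y) = b := by
  have hF : Fact (1 < p) := ⟨hp.one_lt⟩
  funext x y
  rw [hl, ZMod.val_one, one_smul]

theorem bb_x [NeZero p] [NeZero (p ^ m)] (E : CE p G H) (hp : p.Prime) (hp2 : MOne p K)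
    (hζ : IsPrimitiveRoot ζ p) (hz : Z2 p K) (D : RD0 K p ζ) (L : LDs D Ω) (Q : DP K Ω)
    (Fr : FR L) {lam : Pl K → ZMod p} (hone : ∀ v, D.Gd v → lam v = 1)
    (I : (Gal(Ω/K) → Gal(Ω/K) → Gal(Ω/K) → ZMod (p ^ m)) →+ AddCircle (1 : ℝ))
    (hG : ∀ x : G, x ^ p = 1) (t : P) (φ₁ : Gal(Ω/K) →* P)
    (h₁ : H38.ML.FT φ₁) (q : P →* G) (hj : q t = E.i 1)
    {b : P → P → ZMod (p ^ m)} {w' : H → H → H → ZMod (p ^ m)}
    (hb : ∀ x y z, d2 b x y z = w' (E.pi (q x)) (E.pi (q y)) (E.pi (q z))) (hw : Nr3 w')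
    (T : Finset (Pl K)) (hT : ∀ v ∈ T, v ∉ D.S0) :
    ∃ (cR : (Gal(Ω/K) →* H) → (T → ZMod p) → Fin D.r → ZMod p)
      (ρR : (Gal(Ω/K) →* H) → (T → ZMod p) → (Gal(Ω/K) →* G)),
      (∀ φ' ∈ XS L Q (E.pi.comp (q.comp φ₁)) T, Lc E L Fr T φ' → ∀ a,
        LR E L Q (q.comp φ₁) φ' (sv E L φ' T a) (cR φ' a) (ρR φ' a)) ∧
      ∀ (γ : Pl K → P) (u : Pl K), D.Gd u → u ∉ T →
        BB L Q Fr lam I φ₁ q b (fun x y z => w' (E.pi x) (E.pi y) (E.pi z)) (insert u T)
            (Function.update γ u t) =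
          ∑ φ' ∈ XS L Q (E.pi.comp (q.comp φ₁)) T, ∑ a : T → ZMod p,
            if Lc E L Fr T φ' then
              ec (Jf I w' φ' (E.pi.comp (q.comp φ₁))) * V2 E q b t (φ' (Fr.F u)) *
                (if D.q u = cR φ' a then ∏ v ∈ T, gv E L q lam b γ φ' T a v
                  (tw E (ρR φ' a) (kc p ζ Ω (D.pi u)) (Fr.F v)) else 0) else 0 := by
  have hft : H38.ML.FT (q.comp φ₁) := by
    obtain ⟨F, hF, h⟩ := h₁
    refine ⟨F, hF, fun σ hσ => ?_⟩
    have h2 : φ₁ σ = 1 := MonoidHom.mem_ker.1 (h hσ)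
    rw [MonoidHom.mem_ker, MonoidHom.comp_apply, h2, map_one]
  obtain ⟨cR, ρR, hLR, hfib⟩ := fib E hp hp2 hζ hz L Q Fr hG (q.comp φ₁) hft T hT
  refine ⟨cR, ρR, hLR, fun γ u hu huT => ?_⟩
  have hub : (fun x y => (lam u).val • b x y) = b := one_smul_b hp (hone u hu) b
  unfold H86.AP.BB
  rw [hfib u hu.1 huT]
  · refine Finset.sum_congr rfl fun φ' hφ' => Finset.sum_congr rfl fun a _ => ?_
    by_cases hL : Lc E L Fr T φ'
    · rw [if_pos hL]
      by_cases hc : D.q u = cR φ' a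
      · rw [if_pos ⟨hL, hc⟩, if_pos hc]
        have hR := hLR φ' hφ' hL a
        have e1 : Jf I (fun x y z => w' (E.pi x) (E.pi y) (E.pi z))
            (tw E (ρR φ' a) (kc p ζ Ω (D.pi u))) (q.comp φ₁) =
            Jf I w' φ' (E.pi.comp (q.comp φ₁)) := by
          have h2 : E.pi.comp (tw E (ρR φ' a) (kc p ζ Ω (D.pi u))) = φ' := lr_pi E hR _
          show Jf I w' (E.pi.comp (tw E (ρR φ' a) (kc p ζ Ω (D.pi u)))) (E.pi.comp (q.comp φ₁)) = _
          rw [h2]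
        have hs1 : sv E L φ' T a u = 1 := dif_neg huT
        have e2 : tw E (ρR φ' a) (kc p ζ Ω (D.pi u)) (L.t u) = E.i 1 := by
          rw [lr_t E hp hζ hR hu.1 hu.1, if_pos rfl, hs1, mul_one]
        have e3 : E.pi (tw E (ρR φ' a) (kc p ζ Ω (D.pi u)) (Fr.F u)) = φ' (Fr.F u) :=
          DFunLike.congr_fun (lr_pi E hR (kc p ζ Ω (D.pi u))) (Fr.F u)
        rw [e1, Finset.prod_insert huT, Function.update_self, hub, e2, v2_eq E q hb hw, e3,
          ← mul_assoc]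
        congr 1
        refine Finset.prod_congr rfl fun v hv => ?_
        have hvu : v ≠ u := fun h => huT (h ▸ hv)
        rw [Function.update_of_ne hvu, lr_t E hp hζ hR hu.1 (hT v hv), if_neg hvu]
        rfl
      · rw [if_neg (fun h => hc h.2), if_neg hc, mul_zero]
    · rw [if_neg hL, if_neg fun h => hL h.1]
  · intro φ hφ hX
    have h2 : Vg q (fun x y => (lam u).val • b x y) (Function.update γ u t u) (φ (L.t u))
        (φ (Fr.F u)) ≠ 0 := by
      intro h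
      exact hX (by rw [Finset.prod_insert huT, h, zero_mul, mul_zero])
    rw [Function.update_self] at h2
    exact vb_j0 q (fun g => (E.cent 1 (q g)).symm) hj h2

/-- with the coefficients `Af` -/
theorem bb_af [NeZero p] [NeZero (p ^ m)] (E : CE p G H) (hp : p.Prime) (hp2 : MOne p K)
    (hζ : IsPrimitiveRoot ζ p) (D : RD K p ζ) (L : LDs D.toRD0 Ω) (Q : DP K Ω)
    (Fr : FR L) (Xi : (Fin D.r → ZMod p) → (Gal(Ω/K) →* Multiplicative (ZMod p)))
    (hXi : ∀ κ w, D.Gd w → Multiplicative.toAdd (Xi κ (Fr.F w)) = ∑ i, κ i * D.q w i)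
    (q : P →* G) (b : P → P → ZMod (p ^ m)) (γ : Pl K → P) (t : P)
    (T : Finset (Pl K)) (hT : ∀ v ∈ T, v ∉ D.S0) (φ' : Gal(Ω/K) →* H) (a : T → ZMod p)
    (c : Fin D.r → ZMod p) (ρ : Gal(Ω/K) →* G) {u : Pl K} (hu : D.Gd u) :
    V2 E q b t (φ' (Fr.F u)) * (if D.q u = c then ∏ v ∈ T, gv E L q D.lam b γ φ' T a v
      (tw E ρ (kc p ζ Ω (D.pi u)) (Fr.F v)) else 0) =
      ∑ k : T → ZMod p, ∑ κ : Fin D.r → ZMod p,
        Af D (ch p) E Fr c ρ (gv E L q D.lam b γ φ' T a) T k κ *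
          F2 E q b t (φ'.prod (Lam D Xi T k κ) (Fr.F u)) := by
  have hψ : (ch p).IsPrimitive :=
    AddChar.zmod_char_primitive_of_eq_one_only_at_zero p _ fun _ h => ch_inj p h
  rw [mf D Xi hp hp2 hζ hψ E Q Fr hXi c ρ (gv E L q D.lam b γ φ' T a) T hT hu, Finset.mul_sum]
  refine Finset.sum_congr rfl fun k _ => ?_
  rw [Finset.mul_sum]
  refine Finset.sum_congr rfl fun κ _ => ?_
  show _ = _ * (V2 E q b t (φ' (Fr.F u)) * ch p (Multiplicative.toAdd (Lam D Xi T k κ (Fr.F u))))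
  ring

/-- the state of `β` -/
theorem bb_be [NeZero p] [NeZero (p ^ m)] (E : CE p G H) (hp : p.Prime) (hm : 1 ≤ m)
    (hζ : IsPrimitiveRoot ζ p) (D : RD0 K p ζ) (L : LDs D Ω) (Q : DP K Ω)
    (Fr : FR L) {lam : Pl K → ZMod p} (hone : ∀ v, D.Gd v → lam v = 1)
    (I : (Gal(Ω/K) → Gal(Ω/K) → Gal(Ω/K) → ZMod (p ^ m)) →+ AddCircle (1 : ℝ))
    (hG : ∀ x : G, x ^ p = 1) (t : P) (φ₁ : Gal(Ω/K) →* P)
    (q : P →* G) (hq : Function.Surjective q) (hj : q t = E.i 1)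
    {b : P → P → ZMod (p ^ m)} {w' : H → H → H → ZMod (p ^ m)}
    (hb : ∀ x y z, d2 b x y z = w' (E.pi (q x)) (E.pi (q y)) (E.pi (q z))) (hw : Nr3 w')
    {β : H → ZMod p} (hβ : ∀ x y, β (x * y) = β x + β y)
    (T : Finset (Pl K)) (γ : Pl K → P) {u : Pl K} (hu : D.Gd u) (huT : u ∉ T) :
    BB L Q Fr lam I φ₁ (E.pi.comp q) (fun x y => b x y - be (tz p m) E β (q x) (q y))
        (fun x y z => w' x y z + tz p m (β x * E.ee y z)) (insert u T) (Function.update γ u t) =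
      ∑ φ' ∈ XS L Q (E.pi.comp (q.comp φ₁)) T,
        (ec (Jf I (fun x y z => w' x y z + tz p m (β x * E.ee y z)) φ'
          (E.pi.comp (q.comp φ₁))) *
        ∏ v ∈ T, Vg (E.pi.comp q)
          (fun x y => (lam v).val • (b x y - be (tz p m) E β (q x) (q y))) (γ v)
            (φ' (L.t v)) (φ' (Fr.F v))) *
          F2 E q b t (φ'.prod (nbh β φ') (Fr.F u)) := by
  have hH : ∀ x : H, x ^ p = 1 := exp_H E hG
  have hub := one_smul_b (l := lam u) hp (hone u hu)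
    (fun x y : P => b x y - be (tz p m) E β (q x) (q y))
  unfold H86.AP.BB
  rw [xs_triv hp hζ L Q hH ((E.pi.comp q).comp φ₁) T hu.1]
  · refine Finset.sum_congr rfl fun φ' hφ' => ?_
    have hφ : Hon L T φ' := ((mem_xs hp hζ L Q hH _ T φ').1 hφ').1
    have e1 : φ' (L.t u) = 1 := (hφ.2 u hu.1).2 huT
    have e2 : Vg (E.pi.comp q) (fun x y => b x y - be (tz p m) E β (q x) (q y)) t 1
        (φ' (Fr.F u)) = F2 E q b t (φ'.prod (nbh β φ') (Fr.F u)) := by
      have h := vb_proj0 q hq E (w := fun x y z => w' (E.pi x) (E.pi y) (E.pi z)) hb hw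
        (fun _ _ _ => rfl) (tz p m) β hβ hj (E.s (φ' (Fr.F u)))
      rw [E.pi_s] at h
      have h3 : Vg (E.pi.comp q) (fun x y => b x y - be (tz p m) E β (q x) (q y)) t 1
          (φ' (Fr.F u)) = V2 E q b t (φ' (Fr.F u)) * ch (p ^ m) (-tz p m (β (φ' (Fr.F u)))) := h
      rw [h3, ← map_neg, ch_tz hp hm, ← nbh_apply hβ φ' (Fr.F u)]
      rfl
    rw [Finset.prod_insert huT, Function.update_self, hub, e1, e2]
    have e3 : ∏ v ∈ T, Vg (E.pi.comp q)
          (fun x y => (lam v).val • (b x y - be (tz p m) E β (q x) (q y)))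
            (Function.update γ u t v) (φ' (L.t v)) (φ' (Fr.F v)) =
        ∏ v ∈ T, Vg (E.pi.comp q)
          (fun x y => (lam v).val • (b x y - be (tz p m) E β (q x) (q y))) (γ v)
            (φ' (L.t v)) (φ' (Fr.F v)) := by
      refine Finset.prod_congr rfl fun v hv => ?_
      have hvu : v ≠ u := fun h => huT (h ▸ hv)
      rw [Function.update_of_ne hvu]
    rw [e3, mul_comm (F2 E q b t _), ← mul_assoc]
    rfl
  · intro φ hφ hX
    have h2 : Vg (E.pi.comp q) (fun x y => (lam u).val •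
        (b x y - be (tz p m) E β (q x) (q y))) (Function.update γ u t u) (φ (L.t u))
        (φ (Fr.F u)) ≠ 0 := by
      intro h
      exact hX (by rw [Finset.prod_insert huT, h, zero_mul, mul_zero])
    rw [Function.update_self] at h2
    refine vb_j0 (E.pi.comp q) (fun g => by rw [one_mul, mul_one]) ?_ h2
    rw [MonoidHom.comp_apply, hj, E.pi_i]

end H4.AP

end
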