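import Pool.Agent.H4.AP.Mf

/-!
# [H4 AP MG] the key identity of the main case

* `key_be`: the sum over the labels of the coefficients of `-β ∘ φ'` is the term of `BB` for the state of `β`.
* `onto_lem`: `φ'` is onto if all classes different from `j₀` occur. `mean_lem`: the mean of `F2` is zero if `χ` is not of the form `-β ∘ φ'`.
* `hs_lam`, `hs_nbh`: membership.
-/

set_option autoImplicit false
set_option linter.dupNamespace false

open scoped NumberField ComplexConjugate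
open IsDedekindDomain
open scoped Classical

noncomputable section

namespace H4.AP

open H63.MA H38.BB H38.BG H57.PC H57.BRA H57.GP H77.PC3 H77.WD Pool.Agent.H19.NF
  Pool.Agent.H19.AB Pool.Agent.H19.ST H86.AP

variable {K : Type} [Field K] [NumberField K] {Ω : Type} [Field Ω] [Algebra K Ω]
  [IsAlgClosure K Ω] {p m N : ℕ} {ζ : K} {P G H : Type} [Group P] [Fintype P] [Group G]
  [Fintype G] [Group H]

omit [NumberField K] [IsAlgClosure K Ω] [Fintype P] [Fintype G] in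
theorem ft_comp {φ : Gal(Ω/K) →* P} (h : H38.ML.FT φ) (q : P →* G) : H38.ML.FT (q.comp φ) := by
  obtain ⟨F, hF, h⟩ := h
  refine ⟨F, hF, fun σ hσ => ?_⟩
  have h2 : φ σ = 1 := MonoidHom.mem_ker.1 (h hσ)
  rw [MonoidHom.mem_ker, MonoidHom.comp_apply, h2, map_one]

theorem key_be [NeZero p] [NeZero (p ^ m)] (E : CE p G H) (hp : p.Prime) (hm : 1 ≤ m)
    (hp2 : MOne p K) (hζ : IsPrimitiveRoot ζ p) (D : RD K p ζ)
    (L : LDs D.toRD0 Ω) (Q : DP K Ω) (Fr : FR L)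
    (Xi : (Fin D.r → ZMod p) → (Gal(Ω/K) →* Multiplicative (ZMod p)))
    (hXt : ∀ κ v, v ∉ D.S0 → Xi κ (L.t v) = 1)
    (hXi : ∀ κ w, D.Gd w → Multiplicative.toAdd (Xi κ (Fr.F w)) = ∑ i, κ i * D.q w i)
    (I : (Gal(Ω/K) → Gal(Ω/K) → Gal(Ω/K) → ZMod (p ^ m)) →+ AddCircle (1 : ℝ))
    (hI : Fnl p D.toRD0 L Q Fr D.lam m I) (hG : ∀ x : G, x ^ p = 1) (φ₁ : Gal(Ω/K) →* P)
    (h₁ : H38.ML.FT φ₁) (q : P →* G) (hq : Function.Surjective q)
    (b : P → P → ZMod (p ^ m)) (w' : H → H → H → ZMod (p ^ m)) (γ : Pl K → P)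
    {T : Finset (Pl K)} (hT : ∀ v ∈ T, v ∉ D.S0) {φ' : Gal(Ω/K) →* H}
    (cf' : (T → ZMod p) → Fin D.r → ZMod p) (ρf : (T → ZMod p) → (Gal(Ω/K) →* G))
    (hR : Lc E L Fr T φ' → ∀ a, LR E L Q (q.comp φ₁) φ' (sv E L φ' T a) (cf' a) (ρf a))
    {β : H → ZMod p} (hβ : ∀ x y, β (x * y) = β x + β y) {k : T → ZMod p}
    {κ : Fin D.r → ZMod p}
    (hL : ∀ σ, Multiplicative.toAdd (Lam D Xi T k κ σ) = -β (φ' σ)) :
    (∑ a : T → ZMod p, if Lc E L Fr T φ' then ec (Jf I w' φ' (E.pi.comp (q.comp φ₁))) *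
        Af D (ch p) E Fr (cf' a) (ρf a) (gv E L q D.lam b γ φ' T a) T k κ else 0) =
      ((p : ℂ) ^ D.r)⁻¹ *
        ec (-ZMod.toAddCircle (TS L Fr D.lam (pl2 (be (tz p m) E β) (q.comp φ₁)))) *
        (ec (Jf I (fun x y z => w' x y z + tz p m (β x * E.ee y z)) φ'
          (E.pi.comp (q.comp φ₁))) *
        ∏ v ∈ T, Vg (E.pi.comp q)
          (fun x y => (D.lam v).val • (b x y - be (tz p m) E β (q x) (q y))) (γ v)
            (φ' (L.t v)) (φ' (Fr.F v))) := by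
  by_cases hLc : Lc E L Fr T φ'
  · -- the factors
    let hv : T → ZMod p → ℂ := fun v a0 => (p : ℂ)⁻¹ * ∑ a' : ZMod p,
      Vg q (fun x y => (D.lam v.1).val • b x y) (γ v.1) (E.i a0 * E.s (φ' (L.t v.1)))
        (E.i a' * E.s (φ' (Fr.F v.1))) *
        ch p (D.lam v.1 * bb E β (E.i a0 * E.s (φ' (L.t v.1))) (E.i a' * E.s (φ' (Fr.F v.1))))
    have e1 : ∀ a : T → ZMod p, Af D (ch p) E Fr (cf' a) (ρf a) (gv E L q D.lam b γ φ' T a) T k κ =
        ((p : ℂ) ^ D.r)⁻¹ *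
        ec (-ZMod.toAddCircle (TS L Fr D.lam (pl2 (be (tz p m) E β) (q.comp φ₁)))) *
        ec (JJ I (fun x y z => tz p m (β x * E.ee y z)) (E.pi.comp (q.comp φ₁)) φ') *
        ∏ v : T, hv v (a v) := by
      intro a
      have hRa := hR hLc a
      rw [bet E hp hp2 hζ Xi hXt hXi hI (ft_comp h₁ q) (tme_exp hG _) hRa (tme_exp hG _) hT
        (fun v _ hvT => dif_neg hvT) (tz_ch hp hm) (gv E L q D.lam b γ φ' T a) hβ hL,
        ← Finset.prod_coe_sort T]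
      refine congrArg (HMul.hMul _) ?_
      refine Finset.prod_congr rfl fun v _ => ?_
      show _ = hv v (a v)
      have e2 : sv E L φ' T a v.1 = E.i (a v) * E.s (φ' (L.t v.1)) := dif_pos v.2
      have e3 : E.pi (ρf a (Fr.F v.1)) = φ' (Fr.F v.1) := DFunLike.congr_fun hRa.pi (Fr.F v.1)
      rw [sum_base E (fun x => gv E L q D.lam b γ φ' T a v.1 x *
        ch p (D.lam v.1 * bb E β (sv E L φ' T a v.1) x)) (ρf a (Fr.F v.1)), e3]
      unfold gv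
      rw [e2]
    have e4 : ∑ a : T → ZMod p, ∏ v : T, hv v (a v) = ∏ v ∈ T, Vg (E.pi.comp q)
          (fun x y => (D.lam v).val • (b x y - be (tz p m) E β (q x) (q y))) (γ v)
            (φ' (L.t v)) (φ' (Fr.F v)) := by
      rw [← Finset.prod_coe_sort T]
      have e5 : ∀ v : T, Vg (E.pi.comp q)
          (fun x y => (D.lam v.1).val • (b x y - be (tz p m) E β (q x) (q y))) (γ v.1)
            (φ' (L.t v.1)) (φ' (Fr.F v.1)) = ∑ a0 : ZMod p, hv v a0 := fun v =>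
        sum_lab hp hm E q hq b β (D.lam v.1) (γ v.1) (φ' (L.t v.1)) (φ' (Fr.F v.1))
      rw [Finset.prod_congr rfl fun v _ => e5 v, Finset.prod_univ_sum, Fintype.piFinset_univ]
    have e6 : ec (Jf I (fun x y z => w' x y z + tz p m (β x * E.ee y z)) φ'
          (E.pi.comp (q.comp φ₁))) = ec (Jf I w' φ' (E.pi.comp (q.comp φ₁))) *
        ec (JJ I (fun x y z => tz p m (β x * E.ee y z)) (E.pi.comp (q.comp φ₁)) φ') := by
      rw [← AddChar.map_add_eq_mul]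
      congr 1
      exact jj_add I w' (fun x y z => tz p m (β x * E.ee y z)) (E.pi.comp (q.comp φ₁)) φ'
    simp only [if_pos hLc, e1]
    rw [← Finset.mul_sum, ← Finset.mul_sum, e4, e6]
    ring
  · simp only [if_neg hLc, Finset.sum_const_zero]
    have h0 : ∏ v ∈ T, Vg (E.pi.comp q)
          (fun x y => (D.lam v).val • (b x y - be (tz p m) E β (q x) (q y))) (γ v)
            (φ' (L.t v)) (φ' (Fr.F v)) = 0 := by
      unfold Lc at hLc
      push Not at hLc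
      obtain ⟨v, hv, hne⟩ := hLc
      refine Finset.prod_eq_zero hv ?_
      by_contra h
      obtain ⟨σ, x', -, h2, h3, h4⟩ := vb_supp (E.pi.comp q) h
      apply hne
      rw [← h2, ← h3, MonoidHom.comp_apply, MonoidHom.comp_apply]
      refine br_ee E ?_
      rw [← map_mul, h4, map_mul]
    rw [h0, mul_zero, mul_zero]

omit [Fintype P] in
theorem onto_lem (E : CE p G H) (hp : p.Prime) (hG : ∀ x : G, x ^ p = 1) (c : CL p N P)
    (hc : ∀ x : P, x ≠ 1 → ∃ j, IsConj x (c.g j)) (q : P →* G) (hq : Function.Surjective q)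
    {j₀ : Fin N} (hj : q (c.g j₀) = E.i 1) {Γ : Type} [Group Γ] {φ' : Γ →* H} {T : Finset (Pl K)}
    (γ : Pl K → P) (tt : Pl K → Γ)
    (hv : ∀ v ∈ T, ∃ σ : P, IsConj σ (γ v) ∧ E.pi (q σ) = φ' (tt v))
    (hall : ∀ j, j ≠ j₀ → ∃ v ∈ T, γ v = c.g j) : Function.Surjective φ' := by
  have hfin : Finite H := fin_H E
  rw [← MonoidHom.range_eq_top]
  refine jor hp (exp_H E hG) _ fun g => ?_
  obtain ⟨x, hx⟩ := hq (E.s g)
  have hxg : E.pi (q x) = g := by rw [hx, E.pi_s]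
  by_cases h1 : x = 1
  · refine ⟨1, one_mem _, ?_⟩
    rw [← hxg, h1, map_one, map_one]
  · obtain ⟨j, hjx⟩ := hc x h1
    have hpc : ∀ {y z : P}, IsConj y z → IsConj (E.pi (q y)) (E.pi (q z)) := fun h =>
      (E.pi.comp q).map_isConj h
    by_cases hjj : j = j₀
    · refine ⟨1, one_mem _, ?_⟩
      have h2 := hpc hjx
      rw [hjj, hj, E.pi_i, hxg] at h2
      exact h2.symm
    · obtain ⟨v, hvT, hvj⟩ := hall j hjj
      obtain ⟨σ, h3, h4⟩ := hv v hvT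
      refine ⟨φ' (tt v), ⟨_, rfl⟩, ?_⟩
      rw [← h4, ← hxg]
      rw [hvj] at h3
      exact hpc (h3.trans hjx.symm)

omit [IsAlgClosure K Ω] [Fintype G] in
theorem mean_lem [NeZero p] [NeZero (p ^ m)] [Fintype H] (hp : p.Prime) (E : CE p G H)
    (q : P →* G) (b : P → P → ZMod (p ^ m)) (t : P)
    {φ' : Gal(Ω/K) →* H} (hφ : Function.Surjective φ')
    {χ : Gal(Ω/K) →* Multiplicative (ZMod p)}
    (h : ∀ β : H → ZMod p, (∀ x y, β (x * y) = β x + β y) →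
      ∃ σ, Multiplicative.toAdd (χ σ) ≠ -β (φ' σ)) : mr (φ'.prod χ) (F2 E q b t) = 0 := by
  have hF : Fact p.Prime := ⟨hp⟩
  obtain ⟨σ, h1, h2⟩ := prd_cent hp φ' hφ χ h 1
  refine mr_cent (φ'.prod χ) (F2 E q b t) (1, Multiplicative.ofAdd 1) ⟨σ, ?_⟩ (ξ := ch p 1) ?_ ?_
  · refine Prod.ext h1 ?_
    apply Multiplicative.toAdd.injective
    exact h2
  · intro h3
    exact one_ne_zero (ch_inj p h3)
  · intro x
    unfold F2
    show V2 E q b t (1 * x.1) * ch p (Multiplicative.toAdd (Multiplicative.ofAdd 1 * x.2)) = _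
    rw [one_mul, toAdd_mul, toAdd_ofAdd, AddChar.map_add_eq_mul]
    ring

theorem hs_lam [NeZero p] [Finite H] (hp : p.Prime) (hζ : IsPrimitiveRoot ζ p)
    (hH : ∀ x : H, x ^ p = 1) (D : RD K p ζ) (L : LDs D.toRD0 Ω)
    (Xi : (Fin D.r → ZMod p) → (Gal(Ω/K) →* Multiplicative (ZMod p)))
    (hXf : ∀ κ, H38.ML.FT (Xi κ)) (hXt : ∀ κ v, v ∉ D.S0 → Xi κ (L.t v) = 1)
    {T : Finset (Pl K)} (hT : ∀ v ∈ T, v ∉ D.S0) {φ' : Gal(Ω/K) →* H} (hφ : Hon L T φ')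
    (k : T → ZMod p) (κ : Fin D.r → ZMod p) :
    φ'.prod (Lam D Xi T k κ) ∈ HS L (H × Multiplicative (ZMod p)) T := by
  have hH' : ∀ x : H × Multiplicative (ZMod p), x ^ p = 1 := fun x =>
    Prod.ext (hH x.1) (mz_pow x.2)
  rw [mem_hs hp hζ L hH' T]
  refine ⟨ft_prod hφ.1 (lam_ft D Xi hp hζ hXf T k κ), fun v hv => ⟨hH' _, fun hvT => ?_⟩⟩
  refine Prod.ext ((hφ.2 v hv).2 hvT) ?_
  apply Multiplicative.toAdd.injective
  have h := lam_t D Xi hp hζ L hXt hT k κ hv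
  rw [dif_neg hvT] at h
  exact h

omit [IsAlgClosure K Ω] in
theorem nbh_hon [Finite H] {D : RD0 K p ζ} (L : LDs D Ω) {T : Finset (Pl K)}
    {φ' : Gal(Ω/K) →* H} (hφ : Hon L T φ') {β : H → ZMod p}
    (hβ : ∀ x y, β (x * y) = β x + β y) :
    H38.ML.FT (nbh β φ') ∧ ∀ v, v ∉ D.S0 → v ∉ T → nbh β φ' (L.t v) = 1 := by
  constructor
  · obtain ⟨F, hF, h⟩ := hφ.1
    refine ⟨F, hF, fun σ hσ => ?_⟩
    have h2 : φ' σ = 1 := MonoidHom.mem_ker.1 (h hσ)
    rw [MonoidHom.mem_ker]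
    apply Multiplicative.toAdd.injective
    rw [nbh_apply hβ, h2, hom_one hβ, neg_zero, toAdd_one]
  · intro v hv hvT
    apply Multiplicative.toAdd.injective
    rw [nbh_apply hβ, (hφ.2 v hv).2 hvT, hom_one hβ, neg_zero, toAdd_one]

theorem hs_nbh [Finite H] (hp : p.Prime) (hζ : IsPrimitiveRoot ζ p)
    (hH : ∀ x : H, x ^ p = 1) {D : RD0 K p ζ} (L : LDs D Ω) {T : Finset (Pl K)}
    {φ' : Gal(Ω/K) →* H} (hφ : Hon L T φ') {β : H → ZMod p}
    (hβ : ∀ x y, β (x * y) = β x + β y) :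
    φ'.prod (nbh β φ') ∈ HS L (H × Multiplicative (ZMod p)) T := by
  have hn : NeZero p := ⟨hp.ne_zero⟩
  have hH' : ∀ x : H × Multiplicative (ZMod p), x ^ p = 1 := fun x =>
    Prod.ext (hH x.1) (mz_pow x.2)
  obtain ⟨h1, h2⟩ := nbh_hon L hφ hβ
  rw [mem_hs hp hζ L hH' T]
  exact ⟨ft_prod hφ.1 h1, fun v hv => ⟨hH' _, fun hvT =>
    Prod.ext ((hφ.2 v hv).2 hvT) (h2 v hv hvT)⟩⟩

end H4.AP

end
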